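import Mathlib

namespace Pool.Agent.Results.MP_1df74f_al.GenRobustHereditary

open MvPolynomial

/-- The toric ideal of a family `a` of integer vectors: the kernel of the `k`-algebra map
`x_i ↦ t^{a_i}` from the polynomial ring to the Laurent polynomial ring
`k[t_1^{±1}, …, t_d^{±1}]` (the group algebra of `ℤ^d`). -/
noncomputable def toricIdeal (k : Type) [Field k] {ι : Type} {d : ℕ} (a : ι → Fin d → ℤ) :
    Ideal (MvPolynomial ι k) :=
  RingHom.ker (aeval (fun i => (AddMonoidAlgebra.single (a i) (1 : k) :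
    AddMonoidAlgebra k (Fin d → ℤ))) : MvPolynomial ι k →ₐ[k] AddMonoidAlgebra k (Fin d → ℤ))

/-- A monomial order on the exponents `ι →₀ ℕ`. -/
structure MonOrder (ι : Type) where
  lt : (ι →₀ ℕ) → (ι →₀ ℕ) → Prop
  irrefl : ∀ u, ¬ lt u u
  trans : ∀ {u v w}, lt u v → lt v w → lt u w
  total : ∀ {u v}, u ≠ v → lt u v ∨ lt v u
  add : ∀ {u v} (w), lt u v → lt (u + w) (v + w)
  pos : ∀ {u}, u ≠ 0 → lt 0 u

section
variable {k : Type} [Field k] {ι : Type}

/-- `u` is the exponent of the leading monomial of `f`. -/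
def IsLead (o : MonOrder ι) (f : MvPolynomial ι k) (u : ι →₀ ℕ) : Prop :=
  u ∈ f.support ∧ ∀ v ∈ f.support, v ≠ u → o.lt v u

/-- `G` is the reduced Groebner basis of the ideal `I` for the order `o`. -/
def IsReducedGB (o : MonOrder ι) (I : Ideal (MvPolynomial ι k))
    (G : Set (MvPolynomial ι k)) : Prop :=
  (∀ g ∈ G, g ∈ I ∧ ∃ u, IsLead o g u ∧ g.coeff u = 1) ∧
  (∀ f ∈ I, ∀ u, IsLead o f u → ∃ g ∈ G, ∃ v, IsLead o g v ∧ v ≤ u) ∧
  (∀ g ∈ G, ∀ g' ∈ G, g ≠ g' → ∀ v, IsLead o g' v → ∀ u ∈ g.support, ¬ v ≤ u)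

/-- The universal Groebner basis: the union of all reduced Groebner bases. -/
def universalGB (I : Ideal (MvPolynomial ι k)) : Set (MvPolynomial ι k) :=
  {f | ∃ (o : MonOrder ι) (G : Set (MvPolynomial ι k)), IsReducedGB o I G ∧ f ∈ G}

/-- `G` is a minimal generating set of `I` consisting of binomials `x^u - x^v`. -/
def IsMinBinomialGen (I : Ideal (MvPolynomial ι k)) (G : Set (MvPolynomial ι k)) : Prop :=
  (∀ g ∈ G, ∃ u v : ι →₀ ℕ, u ≠ v ∧ g = monomial u 1 - monomial v 1) ∧
  Ideal.span G = I ∧ ∀ H : Set (MvPolynomial ι k), H ⊂ G → Ideal.span H ≠ I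

/-- The universal Markov basis: the union of all minimal generating sets of binomials. -/
def universalMarkov (I : Ideal (MvPolynomial ι k)) : Set (MvPolynomial ι k) :=
  {f | ∃ G : Set (MvPolynomial ι k), IsMinBinomialGen I G ∧ f ∈ G}

/-- Generalized robustness: the universal Groebner basis and the universal Markov basis are equal
(up to the sign of a binomial). -/
def IsGenRobust (I : Ideal (MvPolynomial ι k)) : Prop :=
  ∀ f, (f ∈ universalGB I ∨ -f ∈ universalGB I) ↔ (f ∈ universalMarkov I ∨ -f ∈ universalMarkov I)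

end

/-! ### The degree map -/

section deg
variable {ι : Type} {d : ℕ} (a : ι → Fin d → ℤ)

/-- the `a`-degree of an exponent. -/
noncomputable def D (u : ι →₀ ℕ) : Fin d → ℤ := u.sum fun i m => m • a i

lemma D_zero : D a 0 = 0 := by simp [D]

lemma D_add (u v : ι →₀ ℕ) : D a (u + v) = D a u + D a v := by
  unfold D
  exact Finsupp.sum_add_index' (by simp) (by intros; rw [add_smul])

lemma D_single (i : ι) (m : ℕ) : D a (Finsupp.single i m) = m • a i := by
  unfold D
  exact Finsupp.sum_single_index (by simp)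

/-- positivity of the grading -/
def Pos : Prop := ∃ w : Fin d → ℚ, ∀ i, 0 < ∑ j, w j * (a i j : ℚ)

variable {a}

lemma exists_wt (h : Pos a) : ∃ W : (ι →₀ ℕ) → ℚ, (∀ u v, W (u + v) = W u + W v) ∧
    (∀ u v, D a u = D a v → W u = W v) ∧ (∀ u, u ≠ 0 → 0 < W u) ∧
    (∃ c : ι → ℚ, (∀ i, 0 < c i) ∧ ∀ u, W u = u.sum fun i m => (m : ℚ) * c i) := by
  obtain ⟨w, hw⟩ := h
  have key : ∀ u : ι →₀ ℕ, (∑ j, w j * ((D a u j : ℤ) : ℚ)) =
      u.sum fun i m => (m : ℚ) * ∑ j, w j * (a i j : ℚ) := by
    intro u
    induction u using Finsupp.induction_linear with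
    | zero => simp [D]
    | add f g hf hg =>
      rw [D_add, Finsupp.sum_add_index' (by simp) (by intros; push_cast; ring), ← hf, ← hg,
        ← Finset.sum_add_distrib]
      refine Finset.sum_congr rfl fun j _ => ?_
      simp only [Pi.add_apply]
      push_cast
      ring
    | single i m =>
      rw [D_single, Finsupp.sum_single_index (by simp), Finset.mul_sum]
      refine Finset.sum_congr rfl fun j _ => ?_
      simp only [Pi.smul_apply, nsmul_eq_mul]
      push_cast
      ring
  refine ⟨fun u => ∑ j, w j * ((D a u j : ℤ) : ℚ), ?_, ?_, ?_, fun i => ∑ j, w j * (a i j : ℚ), hw, key⟩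
  · intro u v
    show ∑ j, w j * ((D a (u + v) j : ℤ) : ℚ) = _
    rw [D_add, ← Finset.sum_add_distrib]
    refine Finset.sum_congr rfl fun j _ => ?_
    simp only [Pi.add_apply]
    push_cast
    ring
  · intro u v huv
    show ∑ j, w j * ((D a u j : ℤ) : ℚ) = _
    rw [huv]
  · intro u hu
    show 0 < ∑ j, w j * ((D a u j : ℤ) : ℚ)
    rw [key, Finsupp.sum]
    refine Finset.sum_pos (fun i hi => mul_pos ?_ (hw i)) (Finsupp.support_nonempty_iff.mpr hu)
    have := Finsupp.mem_support_iff.mp hi
    positivity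

/-- fibers are finite -/
lemma fiber_finite [Finite ι] (h : Pos a) (b : ι →₀ ℕ) : {u | D a u = D a b}.Finite := by
  classical
  obtain ⟨W, hadd, hD, hpos, c, hc, hW⟩ := exists_wt h
  have := Fintype.ofFinite ι
  let N : ι →₀ ℕ := Finsupp.equivFunOnFinite.symm (fun i => ⌈W b / c i⌉₊)
  refine (Set.finite_Iic N).subset ?_
  intro u hu
  have hu' : W u = W b := hD _ _ hu
  show u ≤ N
  intro i
  show u i ≤ ⌈W b / c i⌉₊
  have h1 : (u i : ℚ) * c i ≤ W b := by
    rw [← hu', hW]
    by_cases hi : i ∈ u.support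
    · exact Finset.single_le_sum (f := fun i => (u i : ℚ) * c i) (fun j _ => by have := hc j; positivity) hi
    · rw [Finsupp.notMem_support_iff.mp hi]
      simp only [Nat.cast_zero, zero_mul]
      exact Finset.sum_nonneg (fun j _ => by have := hc j; positivity)
  have h2 : (u i : ℚ) ≤ W b / c i := by
    rw [le_div_iff₀ (hc i)]; exact h1
  exact_mod_cast h2.trans (Nat.le_ceil _)

end deg

/-! ### the combinatorial descriptions -/

section comb
variable {ι : Type} {d : ℕ} (a : ι → Fin d → ℤ)

/-- `v` is the smallest exponent of its fiber. -/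
def IsMinF (o : MonOrder ι) (v : ι →₀ ℕ) : Prop := ∀ v', D a v' = D a v → v' ≠ v → o.lt v v'

def CU (u v : ι →₀ ℕ) : Prop := ∃ o : MonOrder ι, IsMinF a o v ∧ D a u = D a v ∧ u ≠ v ∧
  ∀ p r, u = p + r → r ≠ 0 → IsMinF a o p

def Adj (u v : ι →₀ ℕ) : Prop := ∃ w s t : ι →₀ ℕ, w ≠ 0 ∧ u = w + s ∧ v = w + t ∧ D a s = D a t

def Conn : (ι →₀ ℕ) → (ι →₀ ℕ) → Prop := Relation.EqvGen (Adj a)

def CM (u v : ι →₀ ℕ) : Prop := D a u = D a v ∧ ¬ Conn a u v

variable {a}

lemma CM.symm {u v : ι →₀ ℕ} (h : CM a u v) : CM a v u :=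
  ⟨h.1.symm, fun h' => h.2 (Relation.EqvGen.symm _ _ h')⟩

lemma CM.ne {u v : ι →₀ ℕ} (h : CM a u v) : u ≠ v := by
  rintro rfl
  exact h.2 (Relation.EqvGen.refl _)

lemma Adj.deg {u v : ι →₀ ℕ} (h : Adj a u v) : D a u = D a v := by
  obtain ⟨w, s, t, hw, rfl, rfl, h⟩ := h
  rw [D_add, D_add, h]

lemma Conn.deg {u v : ι →₀ ℕ} (h : Conn a u v) : D a u = D a v := by
  induction h with
  | rel _ _ h => exact h.deg
  | refl _ => rfl
  | symm _ _ _ ih => exact ih.symm
  | trans _ _ _ _ _ ih1 ih2 => exact ih1.trans ih2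

lemma MonOrder.asymm (o : MonOrder ι) {u v : ι →₀ ℕ} (h : o.lt u v) : ¬ o.lt v u :=
  fun h' => o.irrefl _ (o.trans h h')

lemma MonOrder.exists_min (o : MonOrder ι) (T : Set (ι →₀ ℕ)) (hT : T.Finite) (hne : T.Nonempty) :
    ∃ v ∈ T, ∀ v' ∈ T, v' ≠ v → o.lt v v' := by
  classical
  induction T, hT using Set.Finite.induction_on with
  | empty => exact absurd hne (by simp)
  | @insert x T hx hT ih =>
    by_cases hT' : T.Nonempty
    · obtain ⟨v, hv, hmin⟩ := ih hT'
      by_cases hxv : x = v
      · exact absurd (hxv ▸ hv) hx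
      rcases o.total hxv with h | h
      · refine ⟨x, Set.mem_insert _ _, ?_⟩
        intro v' hv' hne'
        rcases hv' with rfl | hv'
        · exact absurd rfl hne'
        by_cases hvv : v' = v
        · rw [hvv]; exact h
        · exact o.trans h (hmin v' hv' hvv)
      · refine ⟨v, Set.mem_insert_of_mem _ hv, ?_⟩
        intro v' hv' hne'
        rcases hv' with rfl | hv'
        · exact h
        · exact hmin v' hv' hne'
    · rw [Set.not_nonempty_iff_eq_empty] at hT'
      subst hT'
      refine ⟨x, Set.mem_insert _ _, ?_⟩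
      intro v' hv' hne'
      rcases hv' with rfl | hv'
      · exact absurd rfl hne'
      · exact absurd hv' (by simp)

lemma exists_minF [Finite ι] (h : Pos a) (o : MonOrder ι) (b : ι →₀ ℕ) :
    ∃ v, D a v = D a b ∧ IsMinF a o v := by
  obtain ⟨v, hv, hmin⟩ := o.exists_min _ (fiber_finite h b) ⟨b, rfl⟩
  have hv' : D a v = D a b := hv
  exact ⟨v, hv', fun v' h1 h2 => hmin v' (h1.trans hv') h2⟩

/-- divisors of minimal exponents are minimal -/
lemma IsMinF.of_add {o : MonOrder ι} {p r : ι →₀ ℕ} (h : IsMinF a o (p + r)) : IsMinF a o p := by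
  intro v' hv' hne
  rcases o.total hne with h1 | h1
  · exfalso
    have h2 := o.add r h1
    have h3 := h (v' + r) (by rw [D_add, D_add, hv']) (fun h => hne (add_right_cancel h))
    exact o.asymm h2 h3
  · exact h1

lemma IsMinF.unique {o : MonOrder ι} {u v : ι →₀ ℕ} (hu : IsMinF a o u) (hv : IsMinF a o v)
    (h : D a u = D a v) : u = v := by
  by_contra hne
  exact o.asymm (hv u h hne) (hu v h.symm (Ne.symm hne))

/-- the starred claim -/
lemma star [Finite ι] (h : Pos a) (o : MonOrder ι) {v0 u1 : ι →₀ ℕ} (hv0 : IsMinF a o v0)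
    (hdeg : D a u1 = D a v0) (hc : ¬ Conn a u1 v0) :
    ∃ u0, Conn a u1 u0 ∧ CU a u0 v0 := by
  have hfin : {u | Conn a u1 u}.Finite :=
    (fiber_finite h u1).subset (fun u hu => (Conn.deg hu).symm)
  obtain ⟨u0, hu0, hmin⟩ := o.exists_min _ hfin ⟨u1, Relation.EqvGen.refl _⟩
  have hu0' : Conn a u1 u0 := hu0
  refine ⟨u0, hu0', o, hv0, (Conn.deg hu0').symm.trans hdeg, ?_, ?_⟩
  · rintro rfl
    exact hc hu0'
  · intro p r hpr hr p' hp' hne
    rcases o.total hne with h1 | h1
    · exfalso
      have h2 : o.lt (p' + r) u0 := by rw [hpr]; exact o.add r h1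
      have h3 : Conn a u1 (p' + r) := by
        refine Relation.EqvGen.trans _ _ _ hu0' (Relation.EqvGen.rel _ _ ?_)
        exact ⟨r, p, p', hr, by rw [hpr, add_comm], add_comm _ _, hp'.symm⟩
      by_cases h4 : p' + r = u0
      · rw [h4] at h2
        exact o.irrefl _ h2
      · exact o.asymm h2 (hmin _ h3 h4)
    · exact h1

/-- refine an order by a positive additive weight -/
def MonOrder.refine (φ : (ι →₀ ℕ) →+ ℕ) (o : MonOrder ι) : MonOrder ι where
  lt u v := φ u < φ v ∨ (φ u = φ v ∧ o.lt u v)
  irrefl u h := by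
    rcases h with h | h
    · exact lt_irrefl _ h
    · exact o.irrefl _ h.2
  trans := by
    rintro u v w (h1 | h1) (h2 | h2)
    · exact Or.inl (h1.trans h2)
    · exact Or.inl (h2.1 ▸ h1)
    · exact Or.inl (h1.1 ▸ h2)
    · exact Or.inr ⟨h1.1.trans h2.1, o.trans h1.2 h2.2⟩
  total := by
    intro u v hne
    rcases lt_trichotomy (φ u) (φ v) with h | h | h
    · exact Or.inl (Or.inl h)
    · rcases o.total hne with h' | h'
      · exact Or.inl (Or.inr ⟨h, h'⟩)
      · exact Or.inr (Or.inr ⟨h.symm, h'⟩)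
    · exact Or.inr (Or.inl h)
  add := by
    rintro u v w (h | h)
    · left; rw [map_add, map_add]; omega
    · right; exact ⟨by rw [map_add, map_add, h.1], o.add w h.2⟩
  pos := by
    intro u hu
    rcases Nat.eq_zero_or_pos (φ u) with h | h
    · right; exact ⟨by rw [h, map_zero], o.pos hu⟩
    · left; rw [map_zero]; exact h

lemma exists_monOrder (ι : Type) [Finite ι] : Nonempty (MonOrder ι) := by
  obtain ⟨n, ⟨e⟩⟩ := Finite.exists_equiv_fin ι
  let F : (ι →₀ ℕ) → Lex (Fin n → ℕ) := fun u => toLex (fun j => u (e.symm j))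
  have Fadd : ∀ u v, F (u + v) = F u + F v := fun u v => rfl
  have Finj : Function.Injective F := by
    intro u v h
    ext i
    have := congrFun (congrArg ofLex h) (e i)
    simpa [F] using this
  have F0 : F 0 = 0 := rfl
  refine ⟨⟨fun u v => F u < F v, fun u => lt_irrefl _, fun h1 h2 => lt_trans h1 h2, ?_, ?_, ?_⟩⟩
  · intro u v hne
    exact lt_or_gt_of_ne (fun h => hne (Finj h))
  · intro u v w h
    show F (u + w) < F (v + w)
    rw [Fadd, Fadd]
    exact add_lt_add_left h _
  · intro u hu
    show F 0 < F u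
    have hne : F 0 ≠ F u := fun h => hu (Finj h).symm
    refine lt_of_le_of_ne ?_ hne
    rw [F0]
    exact Pi.toLex_monotone (fun i => Nat.zero_le _)

end comb

/-! ### passing to a subfamily -/

section sub
variable {ι κ : Type} {d : ℕ} {a : ι → Fin d → ℤ} (e : κ → ι) (he : Function.Injective e)

/-- extension of exponents by zero -/
noncomputable def E (v : κ →₀ ℕ) : ι →₀ ℕ := v.mapDomain e

/-- restriction of exponents -/
noncomputable def inn (he : Function.Injective e) : (ι →₀ ℕ) →+ (κ →₀ ℕ) where
  toFun u := u.comapDomain e he.injOn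
  map_zero' := by ext; simp
  map_add' u v := by ext; simp

open Classical in
/-- the part of an exponent outside the subfamily -/
noncomputable def out : (ι →₀ ℕ) →+ (ι →₀ ℕ) where
  toFun u := u.filter (fun i => i ∉ Set.range e)
  map_zero' := Finsupp.filter_zero _
  map_add' _ _ := Finsupp.filter_add

variable {e}

lemma E_add (u v : κ →₀ ℕ) : E e (u + v) = E e u + E e v := Finsupp.mapDomain_add

lemma E_zero : E e 0 = 0 := Finsupp.mapDomain_zero

include he in
lemma E_inj : Function.Injective (E e) := Finsupp.mapDomain_injective he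

lemma inn_E (v : κ →₀ ℕ) : inn e he (E e v) = v := by
  ext i
  simp only [inn, E, AddMonoidHom.coe_mk, ZeroHom.coe_mk, Finsupp.comapDomain_apply]
  exact Finsupp.mapDomain_apply he _ _

lemma out_E (v : κ →₀ ℕ) : out e (E e v) = 0 := by
  classical
  ext i
  simp only [out, E, AddMonoidHom.coe_mk, ZeroHom.coe_mk, Finsupp.filter_apply, Finsupp.coe_zero,
    Pi.zero_apply]
  split_ifs with h
  · rfl
  · exact Finsupp.mapDomain_of_notMem_range _ _ h

lemma E_inn_add_out (u : ι →₀ ℕ) : E e (inn e he u) + out e u = u := by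
  classical
  ext i
  simp only [inn, out, E, AddMonoidHom.coe_mk, ZeroHom.coe_mk, Finsupp.filter_apply,
    Finsupp.add_apply]
  by_cases h : i ∈ Set.range e
  · obtain ⟨j, rfl⟩ := h
    rw [Finsupp.mapDomain_apply he]
    simp
  · rw [Finsupp.mapDomain_of_notMem_range _ _ h]
    simp [h]

include he in
lemma E_eq_of_le {u : κ →₀ ℕ} {p r : ι →₀ ℕ} (h : E e u = p + r) :
    ∃ p' r', p = E e p' ∧ r = E e r' ∧ u = p' + r' := by
  have h1 : out e p + out e r = 0 := by rw [← map_add, ← h, out_E]
  have h2 : out e p = 0 ∧ out e r = 0 := by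
    constructor
    · exact (add_eq_zero.mp h1).1
    · exact (add_eq_zero.mp h1).2
  refine ⟨inn e he p, inn e he r, ?_, ?_, ?_⟩
  · conv_lhs => rw [← E_inn_add_out he p, h2.1, add_zero]
  · conv_lhs => rw [← E_inn_add_out he r, h2.2, add_zero]
  · rw [← map_add, ← h, inn_E]

lemma D_E (v : κ →₀ ℕ) : D a (E e v) = D (a ∘ e) v := by
  unfold D E
  rw [Finsupp.sum_mapDomain_index (by simp) (by intros; rw [add_smul])]
  rfl

/-- block order: outer part first -/
noncomputable def blockOrder (he : Function.Injective e) (o1 : MonOrder ι) (o : MonOrder κ) :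
    MonOrder ι where
  lt u v := o1.lt (out e u) (out e v) ∨ (out e u = out e v ∧ o.lt (inn e he u) (inn e he v))
  irrefl u h := by
    rcases h with h | h
    · exact o1.irrefl _ h
    · exact o.irrefl _ h.2
  trans := by
    rintro u v w (h1 | h1) (h2 | h2)
    · exact Or.inl (o1.trans h1 h2)
    · exact Or.inl (h2.1 ▸ h1)
    · exact Or.inl (h1.1 ▸ h2)
    · exact Or.inr ⟨h1.1.trans h2.1, o.trans h1.2 h2.2⟩
  total := by
    intro u v hne
    by_cases h : out e u = out e v
    · have h' : inn e he u ≠ inn e he v := by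
        intro h'
        apply hne
        rw [← E_inn_add_out he u, h, h', E_inn_add_out]
      rcases o.total h' with h' | h'
      · exact Or.inl (Or.inr ⟨h, h'⟩)
      · exact Or.inr (Or.inr ⟨h.symm, h'⟩)
    · rcases o1.total h with h | h
      · exact Or.inl (Or.inl h)
      · exact Or.inr (Or.inl h)
  add := by
    rintro u v w (h | h)
    · left; rw [map_add, map_add]; exact o1.add _ h
    · right
      refine ⟨by rw [map_add, map_add, h.1], ?_⟩
      rw [map_add, map_add]; exact o.add _ h.2
  pos := by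
    intro u hu
    by_cases h : out e u = 0
    · right
      refine ⟨by rw [h, map_zero], ?_⟩
      rw [map_zero]
      refine o.pos ?_
      intro h'
      apply hu
      rw [← E_inn_add_out he u, h, h', E_zero, add_zero]
    · left
      rw [map_zero]
      exact o1.pos h

/-- restricted order -/
noncomputable def restrictOrder (he : Function.Injective e) (o : MonOrder ι) : MonOrder κ where
  lt u v := o.lt (E e u) (E e v)
  irrefl u := o.irrefl _
  trans := fun h1 h2 => o.trans h1 h2
  total := fun hne => o.total (fun h => hne (E_inj he h))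
  add := by
    intro u v w h
    rw [E_add, E_add]
    exact o.add _ h
  pos := by
    intro u hu
    rw [E_zero]
    exact o.pos (fun h => hu (E_inj he (h.trans E_zero.symm)))

lemma IsMinF_block {o1 : MonOrder ι} {o : MonOrder κ} {v : κ →₀ ℕ}
    (h : IsMinF (a ∘ e) o v) : IsMinF a (blockOrder he o1 o) (E e v) := by
  intro v' hv' hne
  by_cases h0 : out e v' = 0
  · have h1 : E e (inn e he v') = v' := by
      conv_rhs => rw [← E_inn_add_out he v', h0, add_zero]
    right
    refine ⟨by rw [h0, out_E], ?_⟩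
    rw [inn_E]
    apply h
    · rw [← D_E, ← D_E, h1, hv']
    · intro h2
      apply hne
      rw [← h1, h2]
  · left
    rw [out_E]
    exact o1.pos h0

lemma IsMinF_restrict {o : MonOrder ι} {v : κ →₀ ℕ}
    (h : IsMinF a o (E e v)) : IsMinF (a ∘ e) (restrictOrder he o) v := by
  intro v' hv' hne
  exact h _ (by rw [D_E, D_E, hv']) (fun h => hne (E_inj he h))

lemma CU_E [Finite ι] (he : Function.Injective e) {u v : κ →₀ ℕ} (h : CU (a ∘ e) u v) : CU a (E e u) (E e v) := by
  obtain ⟨o, h1, h2, h3, h4⟩ := h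
  obtain ⟨o1⟩ := exists_monOrder ι
  refine ⟨blockOrder he o1 o, IsMinF_block he h1, by rw [D_E, D_E, h2],
    fun h => h3 (E_inj he h), ?_⟩
  intro p r hpr hr
  obtain ⟨p', r', rfl, rfl, rfl⟩ := E_eq_of_le he hpr
  apply IsMinF_block he
  refine h4 p' r' rfl ?_
  rintro rfl
  exact hr E_zero

lemma CU_of_E {u v : κ →₀ ℕ} (he : Function.Injective e) (h : CU a (E e u) (E e v)) :
    CU (a ∘ e) u v := by
  obtain ⟨o, h1, h2, h3, h4⟩ := h
  refine ⟨restrictOrder he o, IsMinF_restrict he h1, by rw [← D_E, ← D_E, h2],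
    fun h => h3 (by rw [h]), ?_⟩
  intro p r hpr hr
  apply IsMinF_restrict he
  refine h4 (E e p) (E e r) (by rw [hpr, E_add]) ?_
  intro h
  exact hr (E_inj he (h.trans E_zero.symm))

lemma Conn_E (he : Function.Injective e) {u v : κ →₀ ℕ} (h : Conn (a ∘ e) u v) :
    Conn a (E e u) (E e v) := by
  induction h with
  | rel _ _ h =>
    obtain ⟨w, s, t, hw, rfl, rfl, h⟩ := h
    refine Relation.EqvGen.rel _ _ ⟨E e w, E e s, E e t, ?_, E_add _ _, E_add _ _, ?_⟩
    · intro h'
      exact hw (E_inj he (h'.trans E_zero.symm))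
    · rw [D_E, D_E, h]
  | refl _ => exact Relation.EqvGen.refl _
  | symm _ _ _ ih => exact Relation.EqvGen.symm _ _ ih
  | trans _ _ _ _ _ ih1 ih2 => exact Relation.EqvGen.trans _ _ _ ih1 ih2

lemma Pos_comp (h : Pos a) : Pos (a ∘ e) := by
  obtain ⟨w, hw⟩ := h
  exact ⟨w, fun i => hw (e i)⟩

/-- The combinatorial main theorem. -/
theorem comb_main [Finite ι] [Finite κ] (hpos : Pos a) (he : Function.Injective e)
    (h1 : ∀ u v, CU a u v → CM a u v) (h2 : ∀ u v, CM a u v → CU a u v ∨ CU a v u) :
    (∀ u v, CU (a ∘ e) u v → CM (a ∘ e) u v) ∧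
    (∀ u v, CM (a ∘ e) u v → CU (a ∘ e) u v ∨ CU (a ∘ e) v u) := by
  classical
  have hpos' : Pos (a ∘ e) := Pos_comp hpos
  refine ⟨?_, ?_⟩
  · intro u v huv
    have h3 := h1 _ _ (CU_E he huv)
    exact ⟨by rw [← D_E, ← D_E, h3.1], fun h => h3.2 (Conn_E he h)⟩
  · intro u v huv
    suffices hS : CM a (E e u) (E e v) by
      rcases h2 _ _ hS with h | h
      · exact Or.inl (CU_of_E he h)
      · exact Or.inr (CU_of_E he h)
    refine ⟨by rw [D_E, D_E, huv.1], ?_⟩
    intro hconn
    -- the smallest element of the class of `v`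
    obtain ⟨o⟩ := exists_monOrder κ
    have hfin : {x | Conn (a ∘ e) v x}.Finite :=
      (fiber_finite hpos' v).subset (fun x hx => (Conn.deg hx).symm)
    obtain ⟨w0, hw0, hmin⟩ := o.exists_min _ hfin ⟨v, Relation.EqvGen.refl _⟩
    have hw0' : Conn (a ∘ e) v w0 := hw0
    have hu0 : u ≠ 0 := by
      rintro rfl
      obtain ⟨W, hadd, hD, hp, -⟩ := exists_wt hpos'
      have hv0 : v = 0 := by
        by_contra hv
        have := hp v hv
        rw [← hD _ _ huv.1] at this
        have h00 := hadd 0 0
        rw [add_zero] at h00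
        linarith
      exact huv.ne hv0.symm
    let φ : (κ →₀ ℕ) →+ ℕ :=
      { toFun := fun x => x.sum fun i m => if i ∈ w0.support then 0 else m
        map_zero' := by simp
        map_add' := fun x y => Finsupp.sum_add_index' (by simp) (by intros; split_ifs <;> simp) }
    have hφ0 : ∀ x : κ →₀ ℕ, φ x = 0 → ∀ i, x i ≠ 0 → w0 i ≠ 0 := by
      intro x hx i hi
      have hx' : (x.sum fun i m => if i ∈ w0.support then 0 else m) = 0 := hx
      rw [Finsupp.sum, Finset.sum_eq_zero_iff] at hx'
      have := hx' i (Finsupp.mem_support_iff.mpr hi)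
      by_contra hw
      rw [if_neg (by simpa using hw)] at this
      exact hi this
    have hφw : φ w0 = 0 := by
      show (w0.sum fun i m => if i ∈ w0.support then 0 else m) = 0
      rw [Finsupp.sum]
      exact Finset.sum_eq_zero (fun i hi => by rw [if_pos hi])
    have hminF : IsMinF (a ∘ e) (MonOrder.refine φ o) w0 := by
      intro y hy hne
      rcases Nat.eq_zero_or_pos (φ y) with h0 | h0
      · right
        refine ⟨by rw [hφw, h0], ?_⟩
        apply hmin _ _ hne
        refine Relation.EqvGen.trans _ _ _ hw0' (Relation.EqvGen.rel _ _ ?_)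
        have hy0 : y ≠ 0 := by
          rintro rfl
          obtain ⟨W, hadd, hD, hp, -⟩ := exists_wt hpos'
          have := hp u hu0
          have h5 : D (a ∘ e) u = D (a ∘ e) 0 := by
            rw [hy, ← Conn.deg hw0', huv.1]
          rw [hD _ _ h5] at this
          have h00 := hadd 0 0
          rw [add_zero] at h00
          linarith
        obtain ⟨i, hi⟩ := Finsupp.ne_iff.mp hy0
        have hi' : y i ≠ 0 := hi
        have hwi := hφ0 y h0 i hi'
        have e1 : w0 = Finsupp.single i 1 + (w0 - Finsupp.single i 1) := by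
          rw [add_tsub_cancel_of_le]
          exact Finsupp.single_le_iff.mpr (Nat.one_le_iff_ne_zero.mpr hwi)
        have e2 : y = Finsupp.single i 1 + (y - Finsupp.single i 1) := by
          rw [add_tsub_cancel_of_le]
          exact Finsupp.single_le_iff.mpr (Nat.one_le_iff_ne_zero.mpr hi')
        refine ⟨Finsupp.single i 1, w0 - Finsupp.single i 1, y - Finsupp.single i 1,
          by simp, e1, e2, ?_⟩
        have h6 := hy
        rw [e1, e2, D_add, D_add] at h6
        exact (add_left_cancel h6).symm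
      · left
        rw [hφw]
        exact h0
    have hnc : ¬ Conn (a ∘ e) u w0 := by
      intro h
      exact huv.2 (Relation.EqvGen.trans _ _ _ h (Relation.EqvGen.symm _ _ hw0'))
    obtain ⟨u0, hu0', hCU⟩ := star hpos' (MonOrder.refine φ o) hminF
      (huv.1.trans (Conn.deg hw0')) hnc
    have h7 := h1 _ _ (CU_E he hCU)
    apply h7.2
    refine Relation.EqvGen.trans _ _ _ (Relation.EqvGen.symm _ _ (Conn_E he hu0')) ?_
    exact Relation.EqvGen.trans _ _ _ hconn (Conn_E he hw0')

end sub

/-! ### the algebraic side -/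

section alg
variable {k : Type} [Field k] {ι : Type} {d : ℕ} {a : ι → Fin d → ℤ}

/-- linear map with prescribed values on monomials -/
noncomputable def lin {M : Type} [AddCommMonoid M] [Module k M] (φ : (ι →₀ ℕ) → M) :
    MvPolynomial ι k →ₗ[k] M := (basisMonomials ι k).constr k φ

lemma lin_monomial {M : Type} [AddCommMonoid M] [Module k M] (φ : (ι →₀ ℕ) → M) (m : ι →₀ ℕ)
    (c : k) : lin φ (monomial m c) = c • φ m := by
  have h1 : (monomial m c : MvPolynomial ι k) = c • (basisMonomials ι k) m := by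
    rw [coe_basisMonomials, smul_monomial, smul_eq_mul, mul_one]
  rw [h1, lin, map_smul, Module.Basis.constr_basis]

/-- a linear map which kills (modulo `N`) all monomial multiples of generators kills the ideal. -/
lemma lin_span {M : Type} [AddCommMonoid M] [Module k M] (φ : (ι →₀ ℕ) → M) (N : Submodule k M)
    (G : Set (MvPolynomial ι k)) (hG : ∀ g ∈ G, ∀ w, lin φ (monomial w 1 * g) ∈ N)
    {h : MvPolynomial ι k} (hh : h ∈ Ideal.span G) : lin φ h ∈ N := by
  suffices key : ∀ p, lin φ (p * h) ∈ N by simpa using key 1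
  induction hh using Submodule.span_induction with
  | mem g hg =>
    intro p
    induction p using MvPolynomial.induction_on' with
    | monomial w c =>
      have h1 : (monomial w c : MvPolynomial ι k) * g = c • (monomial w 1 * g) := by
        rw [← smul_mul_assoc, smul_monomial, smul_eq_mul, mul_one]
      rw [h1, map_smul]
      exact N.smul_mem _ (hG g hg w)
    | add p q hp hq =>
      rw [add_mul, map_add]
      exact N.add_mem hp hq
  | zero => intro p; simp
  | add x y _ _ hx hy =>
    intro p
    rw [mul_add, map_add]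
    exact N.add_mem (hx p) (hy p)
  | smul r x _ hx =>
    intro p
    rw [smul_eq_mul, ← mul_assoc]
    exact hx _

/-- the monomial map -/
noncomputable def F (a : ι → Fin d → ℤ) : MvPolynomial ι k →ₐ[k] AddMonoidAlgebra k (Fin d → ℤ) :=
  aeval (fun i => (AddMonoidAlgebra.single (a i) (1 : k) : AddMonoidAlgebra k (Fin d → ℤ)))

lemma F_monomial (m : ι →₀ ℕ) (c : k) : F a (monomial m c) = AddMonoidAlgebra.single (D a m) c := by
  induction m using Finsupp.induction_linear generalizing c with
  | zero =>
    rw [D_zero]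
    show F a (C c) = _
    rw [F, aeval_C]
    rfl
  | add f g hf hg =>
    have : (monomial (f + g) c : MvPolynomial ι k) = monomial f c * monomial g 1 := by
      rw [monomial_mul, mul_one]
    rw [this, map_mul, hf, hg, AddMonoidAlgebra.single_mul_single, D_add, mul_one]
  | single i n =>
    have : (monomial (Finsupp.single i n) c : MvPolynomial ι k) = C c * X i ^ n := by
      rw [C_mul_X_pow_eq_monomial]
    rw [this, map_mul, map_pow, F, aeval_X, aeval_C, AddMonoidAlgebra.single_pow, D_single]
    show AddMonoidAlgebra.single (0 : Fin d → ℤ) c * _ = _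
    rw [AddMonoidAlgebra.single_mul_single, zero_add, one_pow, mul_one]

lemma mem_toric (f : MvPolynomial ι k) : f ∈ toricIdeal k a ↔ F a f = 0 := by
  unfold toricIdeal
  rw [RingHom.mem_ker]
  rfl

lemma binom_mem {u v : ι →₀ ℕ} (h : D a u = D a v) :
    (monomial u 1 - monomial v 1 : MvPolynomial ι k) ∈ toricIdeal k a := by
  rw [mem_toric, map_sub, F_monomial, F_monomial, h, sub_self]

/-- maps constant on fibers kill the toric ideal -/
lemma lin_fiber {M : Type} [AddCommMonoid M] [Module k M] (r : (Fin d → ℤ) → M)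
    {f : MvPolynomial ι k} (hf : f ∈ toricIdeal k a) : lin (fun m => r (D a m)) f = 0 := by
  let ψ : AddMonoidAlgebra k (Fin d → ℤ) →ₗ[k] M := (AddMonoidAlgebra.basis (Fin d → ℤ) k).constr k r
  have h1 : ∀ g : MvPolynomial ι k, lin (fun m => r (D a m)) g = ψ (F a g) := by
    intro g
    induction g using MvPolynomial.induction_on' with
    | monomial w c =>
      rw [lin_monomial, F_monomial]
      have : (AddMonoidAlgebra.single (D a w) c : AddMonoidAlgebra k (Fin d → ℤ)) =
          c • AddMonoidAlgebra.basis (Fin d → ℤ) k (D a w) := by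
        rw [AddMonoidAlgebra.basis_apply, AddMonoidAlgebra.smul_single, smul_eq_mul, mul_one]
      rw [this, map_smul]
      show _ = c • ((AddMonoidAlgebra.basis (Fin d → ℤ) k).constr k r) (AddMonoidAlgebra.basis (Fin d → ℤ) k (D a w))
      rw [Module.Basis.constr_basis]
    | add p q hp hq => rw [map_add, map_add, map_add, hp, hq]
  rw [h1, (mem_toric f).mp hf, map_zero]

/-- the toric ideal is generated by its binomials -/
lemma toric_le {J : Ideal (MvPolynomial ι k)}
    (hJ : ∀ u v, D a u = D a v → (monomial u 1 - monomial v 1 : MvPolynomial ι k) ∈ J) :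
    toricIdeal k a ≤ J := by
  classical
  intro f hf
  let s : (Fin d → ℤ) → (ι →₀ ℕ) := fun b => if h : ∃ m, D a m = b then h.choose else 0
  have hs : ∀ m, D a (s (D a m)) = D a m := by
    intro m
    have h : ∃ m', D a m' = D a m := ⟨m, rfl⟩
    simp only [s, dif_pos h]
    exact h.choose_spec
  have h1 := lin_fiber (M := MvPolynomial ι k) (fun b => monomial (s b) (1 : k)) hf
  have h2 : ∀ g : MvPolynomial ι k, g - lin (fun m => (monomial (s (D a m)) (1 : k))) g ∈ J := by
    intro g
    induction g using MvPolynomial.induction_on' with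
    | monomial w c =>
      rw [lin_monomial, smul_monomial, smul_eq_mul, mul_one]
      have : (monomial w c - monomial (s (D a w)) c : MvPolynomial ι k) =
          C c * (monomial w 1 - monomial (s (D a w)) 1) := by
        rw [mul_sub, C_mul_monomial, C_mul_monomial, mul_one]
      rw [this]
      exact J.mul_mem_left _ (hJ _ _ (hs w).symm)
    | add p q hp hq =>
      rw [map_add]
      have := J.add_mem hp hq
      convert this using 1
      ring
  have h3 := h2 f
  rw [h1, sub_zero] at h3
  exact h3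

lemma two_in_fiber {f : MvPolynomial ι k} (hf : f ∈ toricIdeal k a) {u : ι →₀ ℕ}
    (hu : u ∈ f.support) : ∃ v ∈ f.support, v ≠ u ∧ D a v = D a u := by
  classical
  by_contra hcon
  push Not at hcon
  have h1 := lin_fiber (M := k) (fun b => if b = D a u then 1 else 0) hf
  have h2 : lin (fun m => if D a m = D a u then (1 : k) else 0) f = f.coeff u := by
    conv_lhs => rw [f.as_sum]
    rw [map_sum, Finset.sum_eq_single u]
    · rw [lin_monomial, if_pos rfl, smul_eq_mul, mul_one]
    · intro v hv hne
      rw [lin_monomial, if_neg (hcon v hv hne), smul_zero]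
    · intro h; exact absurd hu h
  rw [h2] at h1
  exact (mem_support_iff.mp hu) h1

lemma coeff_binom (u v m : ι →₀ ℕ) : open Classical in
    (monomial u 1 - monomial v 1 : MvPolynomial ι k).coeff m =
      (if u = m then 1 else 0) - (if v = m then 1 else 0) := by
  classical
  rw [coeff_sub, coeff_monomial, coeff_monomial]

lemma mem_supp_binom {u v : ι →₀ ℕ} (huv : u ≠ v) (m : ι →₀ ℕ) :
    m ∈ (monomial u 1 - monomial v 1 : MvPolynomial ι k).support ↔ m = u ∨ m = v := by
  classical
  rw [mem_support_iff, coeff_binom]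
  by_cases h1 : u = m
  · subst h1
    simp [huv.symm]
  · by_cases h2 : v = m
    · subst h2
      simp [h1]
    · simp [h1, h2, Ne.symm h1, Ne.symm h2]

lemma lead_binom {o : MonOrder ι} {u v : ι →₀ ℕ} (h : o.lt v u) :
    IsLead o (monomial u 1 - monomial v 1 : MvPolynomial ι k) u := by
  have huv : u ≠ v := by rintro rfl; exact o.irrefl _ h
  refine ⟨(mem_supp_binom huv u).mpr (Or.inl rfl), ?_⟩
  intro m hm hne
  rcases (mem_supp_binom huv m).mp hm with rfl | rfl
  · exact absurd rfl hne
  · exact h

lemma IsLead.unique {o : MonOrder ι} {f : MvPolynomial ι k} {u v : ι →₀ ℕ} (hu : IsLead o f u)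
    (hv : IsLead o f v) : u = v := by
  by_contra hne
  exact o.asymm (hu.2 v hv.1 (Ne.symm hne)) (hv.2 u hu.1 hne)

lemma binom_eq {u v u' v' : ι →₀ ℕ} (huv : u ≠ v) (huv' : u' ≠ v')
    (h : (monomial u 1 - monomial v 1 : MvPolynomial ι k) = monomial u' 1 - monomial v' 1) :
    (u' = u ∧ v' = v) ∨ (u' = v ∧ v' = u) := by
  have h1 : ∀ m, (m = u ∨ m = v) ↔ (m = u' ∨ m = v') := by
    intro m
    rw [← mem_supp_binom (k := k) huv, h, mem_supp_binom huv']
  have h2 := (h1 u').mpr (Or.inl rfl)
  have h3 := (h1 v').mpr (Or.inr rfl)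
  rcases h2 with h2 | h2 <;> rcases h3 with h3 | h3
  · exact absurd (h2.trans h3.symm) huv'
  · exact Or.inl ⟨h2, h3⟩
  · exact Or.inr ⟨h2, h3⟩
  · exact absurd (h2.trans h3.symm) huv'

lemma not_min_iff {o : MonOrder ι} {w : ι →₀ ℕ} :
    ¬ IsMinF a o w ↔ ∃ v, D a v = D a w ∧ o.lt v w := by
  constructor
  · intro h
    unfold IsMinF at h
    push Not at h
    obtain ⟨v, h1, h2, h3⟩ := h
    rcases o.total h2 with h | h
    · exact ⟨v, h1, h⟩
    · exact absurd h h3
  · rintro ⟨v, h1, h2⟩ h
    have hne : v ≠ w := by rintro rfl; exact o.irrefl _ h2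
    exact o.asymm h2 (h v h1 hne)

lemma lead_of_toric {o : MonOrder ι} {f : MvPolynomial ι k} (hf : f ∈ toricIdeal k a)
    {u : ι →₀ ℕ} (hu : IsLead o f u) : ¬ IsMinF a o u := by
  obtain ⟨v, hv, hne, hD⟩ := two_in_fiber hf hu.1
  rw [not_min_iff]
  exact ⟨v, hD, hu.2 v hv hne⟩

lemma universalGB_iff [Finite ι] (hpos : Pos a) (f : MvPolynomial ι k) :
    f ∈ universalGB (toricIdeal k a) ↔ ∃ u v, CU a u v ∧ f = monomial u 1 - monomial v 1 := by
  classical
  constructor
  · rintro ⟨o, G, ⟨hG1, hG2, hG3⟩, hg⟩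
    obtain ⟨hgI, u, hu, hc⟩ := hG1 f hg
    have hlow : ∀ w ∈ f.support, w ≠ u → IsMinF a o w := by
      intro w hw hne
      by_contra hnm
      obtain ⟨v', hv', hlt⟩ := not_min_iff.mp hnm
      obtain ⟨g', hg', v'', hv'', hle⟩ := hG2 _ (binom_mem (k := k) (a := a) hv'.symm) w (lead_binom hlt)
      by_cases hgg : f = g'
      · subst hgg
        have := hv''.unique hu
        subst this
        obtain ⟨r, rfl⟩ := exists_add_of_le hle
        have hr : r ≠ 0 := by rintro rfl; exact hne (add_zero _)
        have h1 := o.add v'' (o.pos hr)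
        rw [zero_add, add_comm r] at h1
        exact o.asymm h1 (hu.2 _ hw hne)
      · exact hG3 f hg g' hg' hgg v'' hv'' w hw hle
    obtain ⟨v, hv, hne, hD⟩ := two_in_fiber hgI hu.1
    have hvm := hlow v hv hne
    have hlt := hu.2 v hv hne
    refine ⟨u, v, ⟨o, hvm, hD.symm, hne.symm, ?_⟩, ?_⟩
    · intro p r hpr hr
      by_contra hnm
      obtain ⟨v', hv', hlt'⟩ := not_min_iff.mp hnm
      obtain ⟨g', hg', v'', hv'', hle⟩ := hG2 _ (binom_mem (k := k) (a := a) hv'.symm) p (lead_binom hlt')
      by_cases hgg : f = g'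
      · subst hgg
        have := hv''.unique hu
        subst this
        rw [hpr] at hle
        apply hr
        have h5 : p + r ≤ p + 0 := by simpa using hle
        exact le_antisymm (le_of_add_le_add_left h5) (zero_le)
      · refine hG3 f hg g' hg' hgg v'' hv'' u hu.1 (hle.trans ?_)
        rw [hpr]
        exact le_self_add
    · by_contra hneq
      have hh0 : f - (monomial u 1 - monomial v 1) ≠ 0 := fun h => hneq (sub_eq_zero.mp h)
      have hhI : f - (monomial u 1 - monomial v 1) ∈ toricIdeal k a :=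
        Ideal.sub_mem _ hgI (binom_mem hD.symm)
      have hsub : ∀ w ∈ (f - (monomial u 1 - monomial v 1)).support, w = v := by
        intro w hw
        by_contra hwv
        have hwu : w ≠ u := by
          rintro rfl
          rw [mem_support_iff, coeff_sub, coeff_binom, hc] at hw
          simp [hne] at hw
        have hwf : w ∈ f.support := by
          rw [mem_support_iff, coeff_sub, coeff_binom] at hw
          rw [mem_support_iff]
          simpa [Ne.symm hwv, Ne.symm hwu] using hw
        obtain ⟨w', hw', hne', hD'⟩ := two_in_fiber hgI hwf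
        have hwm := hlow w hwf hwu
        by_cases hw'u : w' = u
        · subst hw'u
          exact hwv (hwm.unique hvm (hD'.symm.trans hD.symm))
        · exact hne' ((hlow w' hw' hw'u).unique hwm hD')
      obtain ⟨x, hx⟩ := Finset.nonempty_of_ne_empty (fun h => hh0 (support_eq_empty.mp h))
      obtain ⟨y, hy, hne', -⟩ := two_in_fiber hhI hx
      exact hne' ((hsub y hy).trans (hsub x hx).symm)
  · rintro ⟨u, v, ⟨o, h1, h2, h3, h4⟩, rfl⟩
    refine ⟨o, {g | ∃ u v, IsMinF a o v ∧ D a u = D a v ∧ u ≠ v ∧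
      (∀ p r, u = p + r → r ≠ 0 → IsMinF a o p) ∧ g = monomial u 1 - monomial v 1}, ⟨?_, ?_, ?_⟩,
      ⟨u, v, h1, h2, h3, h4, rfl⟩⟩
    · rintro g ⟨u, v, h1, h2, h3, h4, rfl⟩
      refine ⟨binom_mem h2, u, lead_binom (h1 u h2 h3), ?_⟩
      rw [coeff_binom]
      simp [h3.symm]
    · intro f hf u hu
      have hnm := lead_of_toric hf hu
      obtain ⟨p, ⟨hp1, hp2⟩, hp3⟩ := WellFounded.has_min (wellFounded_lt (α := ι →₀ ℕ))
        {p | p ≤ u ∧ ¬ IsMinF a o p} ⟨u, le_rfl, hnm⟩
      obtain ⟨v, hv, hvm⟩ := exists_minF hpos o p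
      have hpv : p ≠ v := by rintro rfl; exact hp2 hvm
      refine ⟨_, ⟨p, v, hvm, hv.symm, hpv, ?_, rfl⟩, p, lead_binom (hvm p hv.symm hpv), hp1⟩
      intro q r hqr hr
      by_contra hq
      refine hp3 q ⟨?_, hq⟩ ?_
      · refine le_trans ?_ hp1
        rw [hqr]; exact le_self_add
      · refine lt_of_le_of_ne (by rw [hqr]; exact le_self_add) ?_
        intro h
        rw [hqr] at h
        exact hr (by simpa using h)
    · rintro g ⟨u, v, h1, h2, h3, h4, rfl⟩ g' ⟨u', v', h1', h2', h3', h4', rfl⟩ hne w hw x hx hle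
      have hlt' : o.lt v' u' := h1' u' h2' h3'
      have hwu : w = u' := hw.unique (lead_binom hlt')
      subst hwu
      have hnm : ¬ IsMinF a o w := not_min_iff.mpr ⟨v', h2'.symm, hlt'⟩
      obtain ⟨r, rfl⟩ := exists_add_of_le hle
      rcases (mem_supp_binom h3 _).mp hx with hx | hx
      · by_cases hr : r = 0
        · subst hr
          rw [add_zero] at hx
          subst hx
          have : v = v' := h1.unique h1' (h2.symm.trans h2')
          subst this
          exact hne rfl
        · exact hnm (h4 w r hx.symm hr)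
      · rw [← hx] at h1
        exact hnm h1.of_add

lemma universalMarkov_iff [Finite ι] (hpos : Pos a) (f : MvPolynomial ι k) :
    f ∈ universalMarkov (toricIdeal k a) ↔ ∃ u v, CM a u v ∧ f = monomial u 1 - monomial v 1 := by
  classical
  constructor
  · rintro ⟨G, ⟨hG1, hG2, hG3⟩, hf⟩
    obtain ⟨u, v, huv, rfl⟩ := hG1 f hf
    have hfI : (monomial u 1 - monomial v 1 : MvPolynomial ι k) ∈ toricIdeal k a := by
      rw [← hG2]; exact Ideal.subset_span hf
    obtain ⟨v', hv', hne, hD⟩ := two_in_fiber hfI ((mem_supp_binom huv u).mpr (Or.inl rfl))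
    have hv'v : v' = v := by
      rcases (mem_supp_binom huv v').mp hv' with h | h
      · exact absurd h hne
      · exact h
    subst hv'v
    refine ⟨u, v', ⟨hD.symm, ?_⟩, rfl⟩
    intro hconn
    obtain ⟨W, hadd, hWD, hWpos, -⟩ := exists_wt hpos
    -- the ideal generated by the other elements
    let J := Ideal.span (G \ {(monomial u 1 - monomial v' 1 : MvPolynomial ι k)})
    let φ : (ι →₀ ℕ) → MvPolynomial ι k := fun m => if W m < W u then monomial m 1 else 0
    have htr : ∀ h ∈ Ideal.span G, lin φ h ∈ J := by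
      intro h hh
      have := lin_span φ (J.restrictScalars k) G ?_ hh
      · exact this
      intro g hg w
      obtain ⟨p, q, hpq, hgpq⟩ := hG1 g hg
      have hgI : g ∈ toricIdeal k a := by rw [← hG2]; exact Ideal.subset_span hg
      have hDpq : D a p = D a q := by
        rw [hgpq] at hgI
        obtain ⟨x, hx, hne, hD⟩ := two_in_fiber hgI ((mem_supp_binom hpq p).mpr (Or.inl rfl))
        rcases (mem_supp_binom hpq x).mp hx with h | h
        · exact absurd h hne
        · rw [← h, hD]
      have hexp : (monomial w 1 * g : MvPolynomial ι k) = monomial (w + p) 1 - monomial (w + q) 1 := by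
        rw [hgpq, mul_sub, monomial_mul, monomial_mul, mul_one]
      show lin φ (monomial w 1 * g) ∈ J
      rw [hexp, map_sub, lin_monomial, lin_monomial, one_smul, one_smul]
      have hWpq : W (w + p) = W (w + q) := by rw [hadd, hadd, hWD _ _ hDpq]
      simp only [φ]
      by_cases hlt : W (w + p) < W u
      · rw [if_pos hlt, if_pos (hWpq ▸ hlt), ← hexp]
        apply Ideal.mul_mem_left
        apply Ideal.subset_span
        refine ⟨hg, ?_⟩
        intro hgf
        rw [Set.mem_singleton_iff] at hgf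
        rw [hgf] at hgpq
        have hWpu : W p = W u := by
          rcases binom_eq huv hpq hgpq with ⟨h1, -⟩ | ⟨h1, -⟩
          · rw [h1]
          · rw [h1]; exact hWD _ _ hD
        rw [hadd, hWpu] at hlt
        by_cases hw : w = 0
        · subst hw
          have h00 := hadd 0 0
          rw [add_zero] at h00
          linarith
        · have := hWpos w hw
          linarith
      · rw [if_neg hlt, if_neg (by rw [← hWpq]; exact hlt), sub_zero]
        exact J.zero_mem
    have hmove : ∀ x y, Conn a x y → W x = W u → (monomial x 1 - monomial y 1 : MvPolynomial ι k) ∈ J := by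
      intro x y hxy
      induction hxy with
      | rel x y h =>
        intro hW
        obtain ⟨w, s, t, hw, rfl, rfl, hst⟩ := h
        have h1 : (monomial (w + s) 1 - monomial (w + t) 1 : MvPolynomial ι k) =
            monomial w 1 * (monomial s 1 - monomial t 1) := by
          rw [mul_sub, monomial_mul, monomial_mul, mul_one]
        rw [h1]
        apply Ideal.mul_mem_left
        have h2 := htr _ (by rw [hG2]; exact binom_mem (k := k) hst)
        have h3 := hWpos w hw
        rw [hadd] at hW
        have h4 : W s < W u := by linarith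
        have h5 : W t < W u := by rw [← hWD _ _ hst]; exact h4
        rw [map_sub, lin_monomial, lin_monomial, one_smul, one_smul] at h2
        simp only [φ, if_pos h4, if_pos h5] at h2
        exact h2
      | refl x => intro _; rw [sub_self]; exact J.zero_mem
      | symm x y h ih =>
        intro hW
        have h1 : W x = W y := hWD _ _ (Conn.deg h)
        have h2 := ih (h1.trans hW)
        rw [← neg_sub]
        exact J.neg_mem h2
      | trans x y z h1 h2 ih1 ih2 =>
        intro hW
        have h3 : W y = W x := (hWD _ _ (Conn.deg h1)).symm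
        have := J.add_mem (ih1 hW) (ih2 (h3.trans hW))
        rwa [sub_add_sub_cancel] at this
    have hfJ := hmove u v' hconn rfl
    refine hG3 (G \ {(monomial u 1 - monomial v' 1 : MvPolynomial ι k)}) ?_ ?_
    · exact ⟨Set.sdiff_subset, fun h => (h hf).2 rfl⟩
    · apply le_antisymm
      · rw [← hG2]
        exact Ideal.span_mono Set.sdiff_subset
      · rw [← hG2, Ideal.span_le]
        intro g hg
        by_cases h : g = (monomial u 1 - monomial v' 1 : MvPolynomial ι k)
        · rw [h]; exact hfJ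
        · exact Ideal.subset_span ⟨hg, h⟩
  · rintro ⟨u, v, ⟨hD, hnc⟩, rfl⟩
    have huv : u ≠ v := by rintro rfl; exact hnc (Relation.EqvGen.refl _)
    let G : Set (MvPolynomial ι k) := {g | ∃ p q, p ≠ q ∧ D a p = D a q ∧
      g = monomial p 1 - monomial q 1 ∧ ((Conn a u p ↔ Conn a u q) ∨ (p = u ∧ q = v))}
    have hGspan : Ideal.span G = toricIdeal k a := by
      apply le_antisymm
      · rw [Ideal.span_le]
        rintro g ⟨p, q, -, h, rfl, -⟩
        exact binom_mem h
      · apply toric_le
        have key : ∀ p q, D a p = D a q → ((Conn a u p ↔ Conn a u q) ∨ (p = u ∧ q = v)) →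
            (monomial p 1 - monomial q 1 : MvPolynomial ι k) ∈ Ideal.span G := by
          intro p q hpq h
          by_cases hne : p = q
          · rw [hne, sub_self]; exact Ideal.zero_mem _
          · exact Ideal.subset_span ⟨p, q, hne, hpq, rfl, h⟩
        have key2 : ∀ p q, D a p = D a q → Conn a u p → ¬ Conn a u q →
            (monomial p 1 - monomial q 1 : MvPolynomial ι k) ∈ Ideal.span G := by
          intro p q hpq hp hq
          have e1 := key p u (Conn.deg hp).symm (Or.inl ⟨fun _ => Relation.EqvGen.refl _, fun _ => hp⟩)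
          have e2 := key u v hD (Or.inr ⟨rfl, rfl⟩)
          have e3 := key v q (by rw [← hD, Conn.deg hp, hpq]) (Or.inl ⟨fun h => absurd h hnc, fun h => absurd h hq⟩)
          have := Ideal.add_mem _ (Ideal.add_mem _ e1 e2) e3
          rwa [sub_add_sub_cancel, sub_add_sub_cancel] at this
        intro p q hpq
        by_cases hp : Conn a u p <;> by_cases hq : Conn a u q
        · exact key p q hpq (Or.inl ⟨fun _ => hq, fun _ => hp⟩)
        · exact key2 p q hpq hp hq
        · rw [← neg_sub]
          exact (Ideal.span G).neg_mem (key2 q p hpq.symm hq hp)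
        · exact key p q hpq (Or.inl ⟨fun h => absurd h hp, fun h => absurd h hq⟩)
    have hfg : (Ideal.span G).FG := IsNoetherian.noetherian _
    obtain ⟨T, hTG, hT⟩ := (Submodule.fg_span_iff_fg_span_finset_subset G).mp hfg
    have hT' : Ideal.span (T : Set (MvPolynomial ι k)) = toricIdeal k a := by
      rw [← hGspan]; exact hT.symm
    -- a minimal subset
    have hex : ∃ T' : Finset (MvPolynomial ι k), T' ⊆ T ∧
        Ideal.span (T' : Set (MvPolynomial ι k)) = toricIdeal k a ∧
        ∀ H : Set (MvPolynomial ι k), H ⊂ (T' : Set _) → Ideal.span H ≠ toricIdeal k a := by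
      have hne : {n : ℕ | ∃ T' : Finset (MvPolynomial ι k), T' ⊆ T ∧
        Ideal.span (T' : Set (MvPolynomial ι k)) = toricIdeal k a ∧ T'.card = n}.Nonempty :=
        ⟨T.card, T, le_rfl, hT', rfl⟩
      obtain ⟨n, ⟨T', h1, h2, h3⟩, hmin⟩ := WellFounded.has_min (wellFounded_lt (α := ℕ)) _ hne
      refine ⟨T', h1, h2, ?_⟩
      intro H hH hHs
      have hHfin : H.Finite := T'.finite_toSet.subset hH.subset
      refine hmin (hHfin.toFinset.card) ⟨hHfin.toFinset, ?_, by simpa using hHs, rfl⟩ ?_
      · intro x hx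
        exact h1 (hH.subset (by simpa using hx))
      · rw [← h3]
        apply Finset.card_lt_card
        rw [← Finset.coe_ssubset]
        simpa using hH
    obtain ⟨T', h1, h2, h3⟩ := hex
    refine ⟨T', ⟨?_, h2, h3⟩, ?_⟩
    · intro g hg
      obtain ⟨p, q, hne, -, hg', -⟩ := hTG (h1 hg)
      exact ⟨p, q, hne, hg'⟩
    · by_contra hfT
      let φ : (ι →₀ ℕ) → k := fun m => if Conn a u m then 1 else 0
      have hfI : (monomial u 1 - monomial v 1 : MvPolynomial ι k) ∈ Ideal.span (T' : Set (MvPolynomial ι k)) := by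
        rw [h2]; exact binom_mem hD
      have hz := lin_span φ (⊥ : Submodule k k) (T' : Set (MvPolynomial ι k)) ?_ hfI
      · rw [Submodule.mem_bot, map_sub, lin_monomial, lin_monomial] at hz
        simp only [φ, if_neg hnc] at hz
        simp at hz
        exact hz (Relation.EqvGen.refl u)
      · intro g hg w
        obtain ⟨p, q, hne, hpq, hg', hcase⟩ := hTG (h1 hg)
        have hgu : ¬ (p = u ∧ q = v) := by
          rintro ⟨rfl, rfl⟩
          rw [hg'] at hg
          exact hfT hg
        have hcase' := hcase.resolve_right hgu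
        have hexp : (monomial w 1 * g : MvPolynomial ι k) = monomial (w + p) 1 - monomial (w + q) 1 := by
          rw [hg', mul_sub, monomial_mul, monomial_mul, mul_one]
        rw [Submodule.mem_bot, hexp, map_sub, lin_monomial, lin_monomial]
        have hiff : Conn a u (w + p) ↔ Conn a u (w + q) := by
          by_cases hw : w = 0
          · subst hw
            rw [zero_add, zero_add]; exact hcase'
          · have hadj : Conn a (w + p) (w + q) := Relation.EqvGen.rel _ _ ⟨w, p, q, hw, rfl, rfl, hpq⟩
            exact ⟨fun h => Relation.EqvGen.trans _ _ _ h hadj,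
              fun h => Relation.EqvGen.trans _ _ _ h (Relation.EqvGen.symm _ _ hadj)⟩
        simp only [φ, hiff, sub_self]

/-- combinatorial form of generalized robustness -/
lemma genRobust_iff [Finite ι] (hpos : Pos a) : IsGenRobust (toricIdeal k a) ↔
    (∀ u v, CU a u v → CM a u v) ∧ (∀ u v, CM a u v → CU a u v ∨ CU a v u) := by
  have hU : ∀ f : MvPolynomial ι k,
      (f ∈ universalGB (toricIdeal k a) ∨ -f ∈ universalGB (toricIdeal k a)) ↔
      ∃ u v, (CU a u v ∨ CU a v u) ∧ f = monomial u 1 - monomial v 1 := by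
    intro f
    rw [universalGB_iff hpos, universalGB_iff hpos]
    constructor
    · rintro (⟨u, v, h, rfl⟩ | ⟨u, v, h, hf⟩)
      · exact ⟨u, v, Or.inl h, rfl⟩
      · exact ⟨v, u, Or.inr h, by rw [← neg_neg f, hf, neg_sub]⟩
    · rintro ⟨u, v, h | h, rfl⟩
      · exact Or.inl ⟨u, v, h, rfl⟩
      · exact Or.inr ⟨v, u, h, by rw [neg_sub]⟩
  have hM : ∀ f : MvPolynomial ι k,
      (f ∈ universalMarkov (toricIdeal k a) ∨ -f ∈ universalMarkov (toricIdeal k a)) ↔
      ∃ u v, CM a u v ∧ f = monomial u 1 - monomial v 1 := by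
    intro f
    rw [universalMarkov_iff hpos, universalMarkov_iff hpos]
    constructor
    · rintro (⟨u, v, h, rfl⟩ | ⟨u, v, h, hf⟩)
      · exact ⟨u, v, h, rfl⟩
      · exact ⟨v, u, h.symm, by rw [← neg_neg f, hf, neg_sub]⟩
    · rintro ⟨u, v, h, rfl⟩
      exact Or.inl ⟨u, v, h, rfl⟩
  unfold IsGenRobust
  simp only [hU, hM]
  have hne : ∀ {u v}, CU a u v → u ≠ v := fun h => h.choose_spec.2.2.1
  constructor
  · intro h
    constructor
    · intro u v huv
      obtain ⟨u', v', h', he⟩ := (h (monomial u 1 - monomial v 1)).mp ⟨u, v, Or.inl huv, rfl⟩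
      rcases binom_eq (hne huv) h'.ne he with ⟨rfl, rfl⟩ | ⟨rfl, rfl⟩
      · exact h'
      · exact h'.symm
    · intro u v huv
      obtain ⟨u', v', h', he⟩ := (h (monomial u 1 - monomial v 1)).mpr ⟨u, v, huv, rfl⟩
      have hne' : u' ≠ v' := by
        rcases h' with h' | h'
        · exact hne h'
        · exact (hne h').symm
      rcases binom_eq huv.ne hne' he with ⟨rfl, rfl⟩ | ⟨rfl, rfl⟩
      · exact h'
      · exact h'.symm
  · rintro ⟨h1, h2⟩ f
    constructor
    · rintro ⟨u, v, h | h, rfl⟩
      · exact ⟨u, v, h1 _ _ h, rfl⟩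
      · exact ⟨u, v, (h1 _ _ h).symm, rfl⟩
    · rintro ⟨u, v, h, rfl⟩
      exact ⟨u, v, h2 _ _ h, rfl⟩

end alg

/-- Generalized robustness of toric ideals is inherited by all subsets of the vector
configuration, over every field. -/
theorem result (k : Type) [Field k] (d : ℕ) (A : Finset (Fin d → ℤ))
    (hpos : ∃ w : Fin d → ℚ, ∀ v ∈ A, 0 < ∑ j, w j * (v j : ℚ))
    (hA : IsGenRobust (toricIdeal k (fun v : A => (v : Fin d → ℤ))))
    (A' : Finset (Fin d → ℤ)) (hsub : A' ⊆ A) :
    IsGenRobust (toricIdeal k (fun v : A' => (v : Fin d → ℤ))) := by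
  have hposA : Pos (fun v : A => (v : Fin d → ℤ)) := by
    obtain ⟨w, hw⟩ := hpos
    exact ⟨w, fun i => hw _ i.2⟩
  let e : A' → A := fun v => ⟨v, hsub v.2⟩
  have he : Function.Injective e := by
    intro x y h
    exact Subtype.ext (congrArg (fun z : A => (z : Fin d → ℤ)) h)
  have hcomp : (fun v : A' => (v : Fin d → ℤ)) = (fun v : A => (v : Fin d → ℤ)) ∘ e := rfl
  have hposA' : Pos (fun v : A' => (v : Fin d → ℤ)) := by
    rw [hcomp]; exact Pos_comp hposA
  rw [genRobust_iff hposA']
  rw [genRobust_iff hposA] at hA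
  exact comb_main (a := fun v : A => (v : Fin d → ℤ)) (e := e) hposA he hA.1 hA.2

end Pool.Agent.Results.MP_1df74f_al.GenRobustHereditary
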